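import Mathlib

/-!
# Odd independent sets in hypercubes of even dimension
-/

set_option autoImplicit false

namespace Pool.Agent.V11116.OddCube

open Finset

/-- The hypercube `Q_d`: the vertices are the `0`-`1` words of length `d` (`ZMod 2 = {0, 1}`), and
two words are adjacent when they differ in exactly one coordinate. -/
def cube (d : ℕ) : SimpleGraph (Fin d → ZMod 2) where
  Adj x y := hammingDist x y = 1
  symm := ⟨fun x y h => by rw [hammingDist_comm]; exact h⟩
  loopless := ⟨fun x h => by simp at h⟩

/-- `S` is odd independent in `G`: it is independent, and every vertex outside `S` has no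
neighbour in `S` or an odd number of neighbours in `S`. -/
def OddIndependent {V : Type*} (G : SimpleGraph V) (S : Set V) : Prop :=
  (∀ u ∈ S, ∀ v ∈ S, ¬ G.Adj u v) ∧
    ∀ v, v ∉ S → (G.neighborSet v ∩ S = ∅ ∨ Odd (G.neighborSet v ∩ S).ncard)

/-- The odd independence number: the largest size of an odd independent set. -/
noncomputable def alphaOd {V : Type*} (G : SimpleGraph V) : ℕ :=
  sSup {n : ℕ | ∃ S : Set V, OddIndependent G S ∧ S.ncard = n}

/-- the `i`-th unit vector -/
def e {d : ℕ} (i : Fin d) : Fin d → ZMod 2 := Pi.single i 1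

theorem cube_adj_iff {d : ℕ} (x y : Fin d → ZMod 2) : (cube d).Adj x y ↔ ∃ i, y = x + e i := by
  change hammingDist x y = 1 ↔ _
  rw [hammingDist, Finset.card_eq_one]
  constructor
  · rintro ⟨i, hi⟩
    refine ⟨i, ?_⟩
    funext j
    have hj := Finset.ext_iff.1 hi j
    simp only [mem_filter, mem_univ, true_and, mem_singleton] at hj
    by_cases hij : j = i
    · subst hij
      have h1 : x j ≠ y j := hj.2 rfl
      simp only [Pi.add_apply, e, Pi.single_eq_same]
      revert h1
      generalize x j = a
      generalize y j = b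
      revert a b
      decide
    · have h1 : x j = y j := by
        by_contra hc
        exact hij (hj.1 hc)
      simp [e, Pi.single_eq_of_ne hij, h1]
  · rintro ⟨i, rfl⟩
    refine ⟨i, ?_⟩
    ext j
    by_cases hij : j = i
    · subst hij
      simp [e]
    · simp [e, hij]

theorem add_e_add_e {d : ℕ} (x : Fin d → ZMod 2) (i : Fin d) : x + e i + e i = x := by
  funext j
  simp only [Pi.add_apply]
  generalize e i j = a
  generalize x j = b
  revert a b
  decide

theorem e_injective {d : ℕ} : Function.Injective (e : Fin d → Fin d → ZMod 2) := by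
  intro i j h
  by_contra hij
  have := congrFun h i
  simp [e, Pi.single_eq_of_ne hij] at this

theorem ncard_nbr {d : ℕ} (x : Fin d → ZMod 2) (S : Set (Fin d → ZMod 2)) [DecidablePred (· ∈ S)] :
    ((cube d).neighborSet x ∩ S).ncard = (univ.filter fun i => x + e i ∈ S).card := by
  have : (cube d).neighborSet x ∩ S = (((univ.filter fun i => x + e i ∈ S).image fun i => x + e i :
      Finset _) : Set (Fin d → ZMod 2)) := by
    ext y
    simp only [Set.mem_inter_iff, SimpleGraph.mem_neighborSet, cube_adj_iff, Finset.coe_image,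
      Set.mem_image, Finset.coe_filter, mem_univ, true_and]
    constructor
    · rintro ⟨⟨i, rfl⟩, hS⟩
      exact ⟨i, hS, rfl⟩
    · rintro ⟨i, hi, rfl⟩
      exact ⟨⟨i, rfl⟩, hi⟩
  rw [this, Set.ncard_coe_finset, Finset.card_image_of_injective]
  intro i j hij
  exact e_injective (add_left_cancel hij)

theorem bdd {V : Type*} [Finite V] (G : SimpleGraph V) :
    BddAbove {n : ℕ | ∃ S : Set V, OddIndependent G S ∧ S.ncard = n} := by
  refine ⟨Nat.card V, ?_⟩
  rintro n ⟨S, -, rfl⟩
  exact Set.ncard_le_card S

theorem alphaOd_mem {V : Type*} [Finite V] (G : SimpleGraph V) :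
    ∃ S : Set V, OddIndependent G S ∧ S.ncard = alphaOd G := by
  refine Nat.sSup_mem (s := {n : ℕ | ∃ S : Set V, OddIndependent G S ∧ S.ncard = n}) ?_ (bdd G)
  exact ⟨0, ∅, ⟨by simp, by simp⟩, by simp⟩

theorem le_alphaOd {V : Type*} [Finite V] (G : SimpleGraph V) (S : Set V)
    (hS : OddIndependent G S) : S.ncard ≤ alphaOd G :=
  le_csSup (bdd G) ⟨S, hS, rfl⟩

/-! ### The upper bound -/

section Upper

variable {d : ℕ} (S : Finset (Fin d → ZMod 2))

/-- directions of `x` that stay outside `S` -/
def dirs (x : Fin d → ZMod 2) : Finset (Fin d) := univ.filter fun i => x + e i ∉ S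

theorem recip_le {a b d : ℕ} (ha : 1 ≤ a) (hb : 1 ≤ b) (ha' : a ≤ d) (hb' : b ≤ d)
    (hab : d + 1 ≤ a + b) : (1 : ℚ) / a + 1 / b ≤ 1 + 1 / d := by
  have h1 : (1 : ℚ) ≤ a := by exact_mod_cast ha
  have h2 : (1 : ℚ) ≤ b := by exact_mod_cast hb
  have h3 : (a : ℚ) ≤ d := by exact_mod_cast ha'
  have h4 : (b : ℚ) ≤ d := by exact_mod_cast hb'
  have h5 : (d : ℚ) + 1 ≤ a + b := by exact_mod_cast hab
  have hd : (0 : ℚ) < d := by linarith
  have ha0 : (0 : ℚ) < a := by linarith
  have hb0 : (0 : ℚ) < b := by linarith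
  have h6 : (a + b) * (d : ℚ) ≤ a * b * (d + 1) := by
    nlinarith [mul_nonneg (sub_nonneg.2 h1) (sub_nonneg.2 h2), mul_nonneg (sub_nonneg.2 h3)
      (sub_nonneg.2 h4), mul_nonneg (sub_nonneg.2 h1) (sub_nonneg.2 h4),
      mul_nonneg (sub_nonneg.2 h2) (sub_nonneg.2 h3), mul_pos ha0 hb0]
  rw [div_add_div _ _ ha0.ne' hb0.ne', div_le_iff₀ (mul_pos ha0 hb0)]
  have : (1 + 1 / (d : ℚ)) * (a * b) = a * b * (d + 1) / d := by field_simp
  rw [this, le_div_iff₀ hd]
  linarith

theorem upper (hd : Even d) (hd0 : 0 < d) (hS : OddIndependent (cube d) (S : Set (Fin d → ZMod 2))) :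
    2 * d * S.card ≤ (d - 1) * 2 ^ d := by
  classical
  set T : Finset (Fin d → ZMod 2) := univ \ S with hT
  have hTmem : ∀ x, x ∈ T ↔ x ∉ S := by intro x; simp [hT]
  -- each vertex outside has a neighbour outside
  have ht1 : ∀ x ∈ T, 1 ≤ (dirs S x).card := by
    intro x hx
    rw [hTmem] at hx
    have h1 := hS.2 x (by simpa using hx)
    have h2 : (dirs S x).card + (univ.filter fun i => x + e i ∈ (S : Set _)).card = d := by
      rw [dirs, add_comm]
      have := Finset.card_filter_add_card_filter_not (s := (univ : Finset (Fin d)))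
        (fun i => x + e i ∈ S)
      simpa using this
    rcases h1 with h1 | h1
    · have h3 := ncard_nbr x (S : Set (Fin d → ZMod 2))
      rw [h1, Set.ncard_empty] at h3
      omega
    · rw [ncard_nbr] at h1
      obtain ⟨a, ha⟩ := hd
      obtain ⟨b, hb⟩ := h1
      omega
  have htd : ∀ x, (dirs S x).card ≤ d := by
    intro x
    exact (Finset.card_le_univ _).trans (by simp)
  have hsum : ∀ x i, x ∈ T → x + e i ∈ T → d + 1 ≤ (dirs S x).card + (dirs S (x + e i)).card := by
    intro x i hx hxi
    rw [hTmem] at hx hxi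
    have h1 : dirs S x ∪ dirs S (x + e i) = univ := by
      ext j
      simp only [dirs, mem_union, mem_filter, mem_univ, true_and, iff_true]
      by_contra hc
      push Not at hc
      refine hS.1 (x + e j) (by simpa using hc.1) (x + e i + e j) (by simpa using hc.2) ?_
      rw [cube_adj_iff]
      exact ⟨i, by abel⟩
    have h2 : i ∈ dirs S x ∩ dirs S (x + e i) := by
      simp only [dirs, mem_inter, mem_filter, mem_univ, true_and]
      exact ⟨hxi, by rw [add_e_add_e]; exact hx⟩
    have h3 := Finset.card_union_add_card_inter (dirs S x) (dirs S (x + e i))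
    rw [h1] at h3
    have h4 : 0 < (dirs S x ∩ dirs S (x + e i)).card := Finset.card_pos.2 ⟨i, h2⟩
    simp only [Finset.card_univ, Fintype.card_fin] at h3
    omega
  -- the set of pairs
  set P : Finset ((Fin d → ZMod 2) × Fin d) :=
    univ.filter fun p => p.1 ∉ S ∧ p.1 + e p.2 ∉ S with hP
  have hPsig : ∀ g : (Fin d → ZMod 2) → ℚ, ∑ p ∈ P, g p.1 = ∑ x ∈ T, (dirs S x).card * g x := by
    intro g
    rw [hP, Finset.sum_filter, Fintype.sum_prod_type, hT]
    rw [← Finset.sum_filter_add_sum_filter_not univ (fun x => x ∈ S)]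
    have h1 : ∑ x ∈ univ.filter (fun x => x ∈ S), ∑ i : Fin d,
        (if x ∉ S ∧ x + e i ∉ S then g x else 0) = 0 := by
      refine Finset.sum_eq_zero fun x hx => Finset.sum_eq_zero fun i _ => ?_
      rw [mem_filter] at hx
      simp [hx.2]
    rw [h1, zero_add]
    have h2 : univ.filter (fun x => x ∉ S) = univ \ S := by ext x; simp
    rw [h2]
    refine Finset.sum_congr rfl fun x hx => ?_
    have hx' : x ∉ S := by simpa using hx
    simp only [hx', not_false_eq_true, true_and]
    rw [← Finset.sum_filter, Finset.sum_const, nsmul_eq_mul, dirs]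
  have hswap : ∀ g : (Fin d → ZMod 2) → ℚ, ∑ p ∈ P, g (p.1 + e p.2) = ∑ p ∈ P, g p.1 := by
    intro g
    refine Finset.sum_nbij' (fun p => (p.1 + e p.2, p.2)) (fun p => (p.1 + e p.2, p.2)) ?_ ?_ ?_ ?_ ?_
    · rintro ⟨x, i⟩ h
      simp only [hP, mem_filter, mem_univ, true_and] at h ⊢
      rw [add_e_add_e]
      exact ⟨h.2, h.1⟩
    · rintro ⟨x, i⟩ h
      simp only [hP, mem_filter, mem_univ, true_and] at h ⊢
      rw [add_e_add_e]
      exact ⟨h.2, h.1⟩
    · rintro ⟨x, i⟩ _
      simp [add_e_add_e]
    · rintro ⟨x, i⟩ _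
      simp [add_e_add_e]
    · rintro ⟨x, i⟩ _
      rfl
  have hT1 : ∑ p ∈ P, (1 : ℚ) / (dirs S p.1).card = T.card := by
    rw [hPsig (fun x => (1 : ℚ) / (dirs S x).card), Finset.card_eq_sum_ones, Nat.cast_sum]
    refine Finset.sum_congr rfl fun x hx => ?_
    have := ht1 x hx
    have : ((dirs S x).card : ℚ) ≠ 0 := by
      have : (dirs S x).card ≠ 0 := by omega
      exact_mod_cast this
    field_simp
    simp
  have hle : 2 * (T.card : ℚ) ≤ (1 + 1 / d) * P.card := by
    have h1 : 2 * (T.card : ℚ) = ∑ p ∈ P, ((1 : ℚ) / (dirs S p.1).card +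
        1 / (dirs S (p.1 + e p.2)).card) := by
      rw [Finset.sum_add_distrib, hswap (fun x => (1 : ℚ) / (dirs S x).card), hT1]
      ring
    rw [h1, mul_comm, ← nsmul_eq_mul, ← Finset.sum_const]
    refine Finset.sum_le_sum fun p hp => ?_
    simp only [hP, mem_filter, mem_univ, true_and] at hp
    exact recip_le (ht1 _ ((hTmem _).2 hp.1)) (ht1 _ ((hTmem _).2 hp.2)) (htd _) (htd _)
      (hsum _ _ ((hTmem _).2 hp.1) ((hTmem _).2 hp.2))
  -- count P
  have hPcard : P.card + d * S.card = d * T.card := by
    have h1 : P.card = ∑ x ∈ T, (dirs S x).card := by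
      have := hPsig (fun _ => 1)
      simp only [Finset.sum_const, nsmul_eq_mul, mul_one] at this
      exact_mod_cast this
    have h2 : ∀ x ∈ T, (dirs S x).card + (univ.filter fun i => x + e i ∈ S).card = d := by
      intro x _
      rw [dirs, add_comm]
      have := Finset.card_filter_add_card_filter_not (s := (univ : Finset (Fin d)))
        (fun i => x + e i ∈ S)
      simpa using this
    have h3 : ∑ x ∈ T, (univ.filter fun i => x + e i ∈ S).card = d * S.card := by
      have h4 : ∑ x ∈ T, (univ.filter fun i => x + e i ∈ S).card =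
          ∑ i : Fin d, (T.filter fun x => x + e i ∈ S).card := by
        simp only [Finset.card_filter]
        rw [Finset.sum_comm]
      rw [h4]
      have h5 : ∀ i : Fin d, (T.filter fun x => x + e i ∈ S).card = S.card := by
        intro i
        refine Finset.card_nbij' (fun x => x + e i) (fun x => x + e i) ?_ ?_ ?_ ?_
        · intro x hx
          simp only [Finset.coe_filter, Set.mem_ofPred_eq] at hx
          exact hx.2
        · intro x hx
          simp only [Finset.coe_filter, Set.mem_ofPred_eq, hTmem, add_e_add_e]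
          refine ⟨fun hc => ?_, hx⟩
          exact hS.1 x (by simpa using hx) (x + e i) (by simpa using hc)
            ((cube_adj_iff _ _).2 ⟨i, rfl⟩)
        · intro x _
          simp [add_e_add_e]
        · intro x _
          simp [add_e_add_e]
      simp [h5]
    calc P.card + d * S.card = ∑ x ∈ T, ((dirs S x).card +
          (univ.filter fun i => x + e i ∈ S).card) := by
            rw [Finset.sum_add_distrib, h1, h3]
      _ = ∑ x ∈ T, d := Finset.sum_congr rfl h2
      _ = d * T.card := by simp [mul_comm]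
  have hTc : T.card + S.card = 2 ^ d := by
    have := Finset.card_sdiff_add_card_eq_card (Finset.subset_univ S)
    simpa [hT, ZMod.card] using this
  have hdq : (0 : ℚ) < d := by exact_mod_cast hd0
  have e1 : (P.card : ℚ) + d * S.card = d * T.card := by exact_mod_cast hPcard
  have e2 : (T.card : ℚ) + S.card = 2 ^ d := by exact_mod_cast hTc
  have e3 : 2 * (T.card : ℚ) ≤ (d + 1) * (T.card - S.card) := by
    have : (P.card : ℚ) = d * (T.card - S.card) := by linarith
    rw [this] at hle
    calc 2 * (T.card : ℚ) ≤ (1 + 1 / d) * (d * (T.card - S.card)) := hle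
      _ = (d + 1) * (T.card - S.card) := by field_simp
  have e4 : 2 * (d : ℚ) * S.card ≤ (d - 1) * 2 ^ d := by
    have : (T.card : ℚ) = 2 ^ d - S.card := by linarith
    rw [this] at e3
    nlinarith
  have hcast : ((d - 1 : ℕ) : ℚ) = d - 1 := by
    rw [Nat.cast_sub hd0]; simp
  have : ((2 * d * S.card : ℕ) : ℚ) ≤ (((d - 1) * 2 ^ d : ℕ) : ℚ) := by
    push_cast [hcast]
    linarith
  exact_mod_cast this

end Upper

/-! ### The construction -/

section Lower

theorem exists_labels {d k : ℕ} (hd : Even d) (hk : 1 ≤ k) (hkd : 2 ^ k ≤ d) :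
    ∃ g : Fin d → (Fin k → ZMod 2), ∀ a, Odd (univ.filter fun i => g i = a).card := by
  classical
  have hcard : Fintype.card (Fin k → ZMod 2) = 2 ^ k := by simp [ZMod.card]
  let q : (Fin k → ZMod 2) ≃ Fin (2 ^ k) := Fintype.equivFinOfCardEq hcard
  have hpos : 0 < 2 ^ k := by positivity
  let a₀ := q.symm ⟨0, hpos⟩
  refine ⟨fun i => if h : (i : ℕ) < 2 ^ k then q.symm ⟨i, h⟩ else a₀, fun a => ?_⟩
  have hsplit : (univ.filter fun i : Fin d =>
      (if h : (i : ℕ) < 2 ^ k then q.symm ⟨i, h⟩ else a₀) = a) =
      {⟨q a, lt_of_lt_of_le (q a).2 hkd⟩} ∪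
        (univ.filter fun i : Fin d => 2 ^ k ≤ (i : ℕ) ∧ a₀ = a) := by
    ext i
    simp only [mem_filter, mem_univ, true_and, mem_union, mem_singleton]
    by_cases h : (i : ℕ) < 2 ^ k
    · simp only [h, dite_true, not_le.2 h, false_and, or_false]
      rw [Equiv.symm_apply_eq, Fin.ext_iff, Fin.ext_iff]
    · simp only [h, dite_false, not_lt.1 h, true_and]
      constructor
      · exact fun h => Or.inr h
      · rintro (h' | h')
        · exact absurd (q a).2 (by rw [Fin.ext_iff] at h'; simp at h'; omega)
        · exact h'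
  rw [hsplit, Finset.card_union_of_disjoint, Finset.card_singleton]
  · have h2 : Even (univ.filter fun i : Fin d => 2 ^ k ≤ (i : ℕ) ∧ a₀ = a).card := by
      by_cases ha : a₀ = a
      · simp only [ha, and_true]
        have h3 : (univ.filter fun i : Fin d => 2 ^ k ≤ (i : ℕ)).card = d - 2 ^ k := by
          have h4 := Finset.card_filter_add_card_filter_not (s := (univ : Finset (Fin d)))
            (fun i => (i : ℕ) < 2 ^ k)
          have h5 : (univ.filter fun i : Fin d => (i : ℕ) < 2 ^ k).card = 2 ^ k := by
            rw [Fin.card_filter_val_lt]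
            exact min_eq_right hkd
          simp only [not_lt] at h4
          rw [h5] at h4
          simp only [Finset.card_univ, Fintype.card_fin] at h4
          omega
        rw [h3, Nat.even_sub hkd]
        have : Even (2 ^ k) := (Nat.even_pow.2 ⟨even_two, by omega⟩)
        tauto
      · simp [ha]
    rw [add_comm]
    exact h2.add_one
  · rw [Finset.disjoint_singleton_left, mem_filter]
    rintro ⟨-, h, -⟩
    exact absurd (q a).2 (not_lt.2 h)

variable {d k : ℕ}

/-- parity of the weight -/
def par (x : Fin d → ZMod 2) : ZMod 2 := ∑ i, x i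

/-- the syndrome -/
def synd (g : Fin d → (Fin k → ZMod 2)) (x : Fin d → ZMod 2) : Fin k → ZMod 2 := ∑ i, x i • g i

theorem par_add_e (x : Fin d → ZMod 2) (i : Fin d) : par (x + e i) = par x + 1 := by
  simp [par, e, Finset.sum_add_distrib]

theorem synd_add_e (g : Fin d → (Fin k → ZMod 2)) (x : Fin d → ZMod 2) (i : Fin d) :
    synd g (x + e i) = synd g x + g i := by
  simp only [synd, Pi.add_apply, add_smul, Finset.sum_add_distrib, e]
  congr 1
  rw [Finset.sum_eq_single i]
  · simp
  · intro j _ hj
    simp [Pi.single_eq_of_ne hj]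
  · simp

theorem zmod2 (a : ZMod 2) : a = 0 ∨ a = 1 := by revert a; decide

theorem vadd_self {n : ℕ} (a : Fin n → ZMod 2) : a + a = 0 := by
  funext j
  simp only [Pi.add_apply, Pi.zero_apply]
  generalize a j = b
  revert b
  decide

theorem lower (hd : Even d) (hk : 1 ≤ k) (hkd : 2 ^ k ≤ d) :
    ∃ S : Finset (Fin d → ZMod 2), OddIndependent (cube d) (S : Set (Fin d → ZMod 2)) ∧
      2 ^ k * S.card = (2 ^ k - 1) * 2 ^ (d - 1) := by
  classical
  obtain ⟨g, hg⟩ := exists_labels hd hk hkd
  have hdpos : 0 < d := lt_of_lt_of_le (by positivity) hkd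
  refine ⟨univ.filter fun x => par x = 0 ∧ synd g x ≠ 0, ⟨?_, ?_⟩, ?_⟩
  · intro u hu v hv huv
    simp only [Finset.coe_filter, mem_univ, true_and, Set.mem_ofPred_eq] at hu hv
    obtain ⟨i, rfl⟩ := (cube_adj_iff _ _).1 huv
    rw [par_add_e, hu.1] at hv
    exact absurd hv.1 (by decide)
  · intro v hv
    simp only [Finset.coe_filter, mem_univ, true_and, Set.mem_ofPred_eq] at hv
    rcases zmod2 (par v) with hp | hp
    · left
      rw [Set.eq_empty_iff_forall_notMem]
      rintro w ⟨hw, hw'⟩
      simp only [Finset.coe_filter, mem_univ, true_and, Set.mem_ofPred_eq] at hw'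
      obtain ⟨i, rfl⟩ := (cube_adj_iff _ _).1 hw
      rw [par_add_e, hp] at hw'
      exact absurd hw'.1 (by decide)
    · right
      rw [ncard_nbr]
      have h1 : (univ.filter fun i => v + e i ∈
          ((univ.filter fun x => par x = 0 ∧ synd g x ≠ 0 : Finset _) :
            Set (Fin d → ZMod 2))) = univ.filter fun i => ¬ g i = synd g v := by
        ext i
        simp only [Finset.coe_filter, mem_filter, mem_univ, true_and, Set.mem_ofPred_eq, par_add_e,
          synd_add_e, hp]
        constructor
        · rintro ⟨-, h⟩ h'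
          rw [h', vadd_self] at h
          exact h rfl
        · intro h
          refine ⟨by decide, fun hc => h ?_⟩
          have : g i = synd g v + synd g v + g i := by rw [vadd_self, zero_add]
          rw [this, add_assoc, hc, add_zero]
      rw [h1]
      have h2 := Finset.card_filter_add_card_filter_not (s := (univ : Finset (Fin d)))
        (fun i => g i = synd g v)
      simp only [Finset.card_univ, Fintype.card_fin] at h2
      have h3 := hg (synd g v)
      obtain ⟨a, ha⟩ := hd
      obtain ⟨b, hb⟩ := h3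
      refine ⟨a - b - 1, ?_⟩
      have h4 : (univ.filter fun i => ¬ g i = synd g v).card =
        d - (univ.filter fun i => g i = synd g v).card := by omega
      have h5 : (univ.filter fun i => g i = synd g v).card ≤ d := by omega
      omega
  · -- cardinalities
    have hne : ∀ a, ∃ i, g i = a := by
      intro a
      obtain ⟨b, hb⟩ := hg a
      have : 0 < (univ.filter fun i => g i = a).card := by omega
      obtain ⟨i, hi⟩ := Finset.card_pos.1 this
      exact ⟨i, (mem_filter.1 hi).2⟩
    obtain ⟨i₀, hi₀⟩ := hne 0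
    have hE : ∀ a, (univ.filter fun x : Fin d → ZMod 2 => par x = 0 ∧ synd g x = a).card =
        (univ.filter fun x : Fin d → ZMod 2 => par x = 0 ∧ synd g x = 0).card := by
      intro a
      obtain ⟨i, hi⟩ := hne a
      refine Finset.card_nbij' (fun x => x + e i + e i₀) (fun x => x + e i₀ + e i) ?_ ?_ ?_ ?_
      · intro x hx
        simp only [Finset.coe_filter, mem_univ, true_and, Set.mem_ofPred_eq] at hx ⊢
        rw [par_add_e, par_add_e, synd_add_e, synd_add_e, hx.1, hx.2, hi, hi₀, add_zero, vadd_self]
        exact ⟨by decide, rfl⟩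
      · intro x hx
        simp only [Finset.coe_filter, mem_univ, true_and, Set.mem_ofPred_eq] at hx ⊢
        rw [par_add_e, par_add_e, synd_add_e, synd_add_e, hx.1, hx.2, hi, hi₀]
        exact ⟨by decide, by simp⟩
      · intro x _
        simp [add_e_add_e]
      · intro x _
        simp [add_e_add_e]
    have hO : (univ.filter fun x : Fin d → ZMod 2 => ¬ par x = 0).card =
        (univ.filter fun x : Fin d → ZMod 2 => par x = 0).card := by
      refine Finset.card_nbij' (fun x => x + e i₀) (fun x => x + e i₀) ?_ ?_ ?_ ?_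
      · intro x hx
        simp only [Finset.coe_filter, mem_univ, true_and, Set.mem_ofPred_eq] at hx ⊢
        rw [par_add_e, (zmod2 (par x)).resolve_left hx]
        decide
      · intro x hx
        simp only [Finset.coe_filter, mem_univ, true_and, Set.mem_ofPred_eq] at hx ⊢
        rw [par_add_e, hx]
        decide
      · intro x _
        simp [add_e_add_e]
      · intro x _
        simp [add_e_add_e]
    have h1 := Finset.card_filter_add_card_filter_not (s := (univ : Finset (Fin d → ZMod 2)))
      (fun x => par x = 0)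
    rw [hO] at h1
    have h2 : (univ : Finset (Fin d → ZMod 2)).card = 2 ^ d := by simp [ZMod.card]
    rw [h2] at h1
    have h3 : (univ.filter fun x : Fin d → ZMod 2 => par x = 0).card = 2 ^ (d - 1) := by
      have : 2 ^ d = 2 * 2 ^ (d - 1) := by
        rw [← pow_succ']
        congr 1
        omega
      omega
    have h4 : (univ.filter fun x : Fin d → ZMod 2 => par x = 0).card =
        ∑ a : Fin k → ZMod 2,
          (univ.filter fun x : Fin d → ZMod 2 => par x = 0 ∧ synd g x = a).card := by
      rw [Finset.card_eq_sum_card_fiberwise (f := synd g) (t := univ) (fun _ _ => by simp)]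
      refine Finset.sum_congr rfl fun a _ => ?_
      rw [Finset.filter_filter]
    have h5 : 2 ^ (d - 1) = 2 ^ k *
        (univ.filter fun x : Fin d → ZMod 2 => par x = 0 ∧ synd g x = 0).card := by
      rw [← h3, h4, Finset.sum_congr rfl fun a _ => hE a]
      simp [ZMod.card]
    have h6 : (univ.filter fun x : Fin d → ZMod 2 => par x = 0 ∧ synd g x ≠ 0).card +
        (univ.filter fun x : Fin d → ZMod 2 => par x = 0 ∧ synd g x = 0).card = 2 ^ (d - 1) := by
      rw [← h3]
      have := Finset.card_filter_add_card_filter_not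
        (s := univ.filter fun x : Fin d → ZMod 2 => par x = 0) (fun x => synd g x = 0)
      rw [Finset.filter_filter, Finset.filter_filter] at this
      rw [add_comm]
      exact this
    have h7 : 2 ^ k * (univ.filter fun x : Fin d → ZMod 2 => par x = 0 ∧ synd g x ≠ 0).card +
        2 ^ (d - 1) = 2 ^ k * 2 ^ (d - 1) := by
      rw [← h6, mul_add, ← h5, h6]
    have h8 : 1 ≤ 2 ^ k := Nat.one_le_two_pow
    rw [Nat.sub_mul, one_mul]
    omega

end Lower

/-! ### Bounds for `alphaOd` -/

theorem alphaOd_upper {d : ℕ} (hd : Even d) (hd0 : 0 < d) :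
    2 * d * alphaOd (cube d) ≤ (d - 1) * 2 ^ d := by
  classical
  obtain ⟨S, hS, hc⟩ := alphaOd_mem (cube d)
  have h := upper (S.toFinite.toFinset) hd hd0 (by rw [Set.Finite.coe_toFinset]; exact hS)
  rw [← hc, Set.ncard_eq_toFinset_card S S.toFinite]
  exact h

theorem alphaOd_lower {d k : ℕ} (hd : Even d) (hk : 1 ≤ k) (hkd : 2 ^ k ≤ d) :
    (2 ^ k - 1) * 2 ^ (d - 1) ≤ 2 ^ k * alphaOd (cube d) := by
  obtain ⟨S, hS, hc⟩ := lower hd hk hkd
  rw [← hc]
  refine Nat.mul_le_mul_left _ ?_
  have := le_alphaOd (cube d) _ hS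
  rwa [Set.ncard_coe_finset] at this

end Pool.Agent.V11116.OddCube
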